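import Mathlib

set_option autoImplicit false

namespace Pool.Agent.H.MP_773c46_pr

open Finset

/-- move one particle from `x` to `y` -/
noncomputable def move (η : ℤ →₀ ℕ) (x y : ℤ) : ℤ →₀ ℕ :=
  η - Finsupp.single x 1 + Finsupp.single y 1

/-- the generator on configurations with finitely many particles -/
noncomputable def gen (g : ℕ → ℝ) (p : ℤ → ℝ) (f : (ℤ →₀ ℕ) → ℝ) (η : ℤ →₀ ℕ) : ℝ :=
  ∑ x ∈ η.support, g (η x) * ∑' y, p (y - x) * (f (move η x y) - f η)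

/-- the semigroup `exp (t L)` -/
noncomputable def sg (g : ℕ → ℝ) (p : ℤ → ℝ) (t : ℝ) (f : (ℤ →₀ ℕ) → ℝ) (η : ℤ →₀ ℕ) : ℝ :=
  ∑' k : ℕ, t ^ k / k.factorial * (gen g p)^[k] f η

/-- restriction to the box -/
noncomputable def trunc (η : ℤ → ℕ) (n : ℕ) : ℤ →₀ ℕ :=
  Finsupp.indicator (Icc (-(n : ℤ)) n) (fun x _ => η x)

noncomputable def J (p : ℤ → ℝ) (x : ℤ) (h : ℤ → ℝ) (a : ℝ) : ℝ := ∑' y, p (y - x) * (h y - a)

variable {p : ℤ → ℝ}

lemma hs (h1 : HasSum p 1) (x : ℤ) : HasSum (fun y => p (y - x)) 1 :=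
  (Equiv.subRight x).hasSum_iff.2 h1

lemma sm (h0 : ∀ z, 0 ≤ p z) (h1 : HasSum p 1) (x : ℤ) {h : ℤ → ℝ} {C : ℝ}
    (hC : ∀ y, |h y| ≤ C) : Summable (fun y => p (y - x) * h y) := by
  refine Summable.of_norm_bounded ((hs h1 x).summable.mul_right C) fun y => ?_
  rw [Real.norm_eq_abs, abs_mul, abs_of_nonneg (h0 _)]
  exact mul_le_mul_of_nonneg_left (hC y) (h0 _)

lemma J_eq (h0 : ∀ z, 0 ≤ p z) (h1 : HasSum p 1) (x : ℤ) {h : ℤ → ℝ} {C : ℝ}
    (hC : ∀ y, |h y| ≤ C) (a : ℝ) : J p x h a = ∑' y, p (y - x) * h y - a := by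
  unfold J
  simp_rw [mul_sub]
  rw [(sm h0 h1 x hC).tsum_sub ((hs h1 x).summable.mul_right a), tsum_mul_right,
    (hs h1 x).tsum_eq, one_mul]

lemma I_le (h0 : ∀ z, 0 ≤ p z) (h1 : HasSum p 1) (x : ℤ) {h : ℤ → ℝ} {C : ℝ}
    (hC : ∀ y, |h y| ≤ C) : |∑' y, p (y - x) * h y| ≤ C := by
  have := tsum_of_norm_bounded (f := fun y => p (y - x) * h y) ((hs h1 x).mul_right C)
    (fun y => by
      rw [Real.norm_eq_abs, abs_mul, abs_of_nonneg (h0 _)]
      exact mul_le_mul_of_nonneg_left (hC y) (h0 _))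
  simpa using this

lemma J_le (h0 : ∀ z, 0 ≤ p z) (h1 : HasSum p 1) (x : ℤ) {h : ℤ → ℝ} {C a : ℝ}
    (hC : ∀ y, |h y| ≤ C) (ha : |a| ≤ C) : |J p x h a| ≤ 2 * C := by
  rw [J_eq h0 h1 x hC]
  have := I_le h0 h1 x hC
  have := abs_sub (∑' y, p (y - x) * h y) a
  linarith

lemma J_sum (h0 : ∀ z, 0 ≤ p z) (h1 : HasSum p 1) (x : ℤ) {ι : Type} (s : Finset ι)
    (c : ι → ℝ) (h : ι → ℤ → ℝ) (a : ι → ℝ) (hb : ∀ i, ∃ C, ∀ y, |h i y| ≤ C) :
    J p x (fun y => ∑ i ∈ s, c i * h i y) (∑ i ∈ s, c i * a i) =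
      ∑ i ∈ s, c i * J p x (h i) (a i) := by
  unfold J
  simp_rw [← tsum_mul_left]
  rw [← Summable.tsum_finsetSum]
  · refine tsum_congr fun y => ?_
    rw [← sum_sub_distrib, mul_sum]
    exact sum_congr rfl fun i _ => by ring
  · intro i _
    obtain ⟨C, hC⟩ := hb i
    refine Summable.mul_left _ (sm h0 h1 x (C := C + |a i|) fun y => ?_)
    linarith [abs_sub (h i y) (a i), hC y]

lemma step (w : ℕ → ℕ → ℝ) (k : ℕ) :
    ∑ ij ∈ antidiagonal (k + 1), ((k + 1).choose ij.1 : ℝ) * w ij.1 ij.2 =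
      ∑ ij ∈ antidiagonal k, (k.choose ij.1 : ℝ) * w (ij.1 + 1) ij.2 +
        ∑ ij ∈ antidiagonal k, (k.choose ij.1 : ℝ) * w ij.1 (ij.2 + 1) := by
  rw [sum_antidiagonal_choose_succ_mul, add_comm]
  congr 1
  refine sum_congr rfl fun ij hij => ?_
  rw [Nat.choose_symm_of_eq_add (mem_antidiagonal.1 hij).symm]

lemma smx (t : ℝ) {a : ℕ → ℝ} {r : ℝ} (ha : ∀ i, |a i| ≤ r ^ i) :
    Summable fun i : ℕ => ‖t ^ i / i.factorial * a i‖ := by
  refine Summable.of_nonneg_of_le (fun _ => norm_nonneg _) (fun i => ?_)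
    (Real.summable_pow_div_factorial (|t| * r))
  rw [Real.norm_eq_abs, abs_mul, abs_div, abs_pow, Nat.abs_cast, mul_pow, mul_div_right_comm]
  exact mul_le_mul_of_nonneg_left (ha i) (by positivity)

lemma expmul (t : ℝ) {a b : ℕ → ℝ} {r s : ℝ} (ha : ∀ i, |a i| ≤ r ^ i) (hb : ∀ i, |b i| ≤ s ^ i) :
    ∑' k : ℕ, t ^ k / k.factorial * ∑ ij ∈ antidiagonal k, (k.choose ij.1 : ℝ) * (a ij.1 * b ij.2) =
      (∑' i : ℕ, t ^ i / i.factorial * a i) * ∑' i : ℕ, t ^ i / i.factorial * b i := by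
  rw [tsum_mul_tsum_eq_tsum_sum_antidiagonal_of_summable_norm (smx t ha) (smx t hb)]
  refine tsum_congr fun k => ?_
  rw [mul_sum]
  refine sum_congr rfl fun ij hij => ?_
  obtain ⟨i, j⟩ := ij
  obtain rfl : i + j = k := mem_antidiagonal.1 hij
  simp only
  rw [Nat.cast_add_choose, pow_add]
  have := Nat.factorial_ne_zero i
  have := Nat.factorial_ne_zero j
  have := Nat.factorial_ne_zero (i + j)
  field_simp

noncomputable def Q (p : ℤ → ℝ) (h : ℤ → ℝ) (x : ℤ) : ℝ := J p x h (h x)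
noncomputable def P (p : ℤ → ℝ) (h : ℤ → ℝ) (x : ℤ) : ℝ := ∑' y, p (y - x) * h y
noncomputable def φ (x : ℤ) : ℝ := if x = 0 then 1 / 2 else 1
noncomputable def F (η : ℤ →₀ ℕ) : ℝ := (1 / 2) ^ η 0
noncomputable def E (p : ℤ → ℝ) (t : ℝ) (x : ℤ) : ℝ :=
  ∑' k : ℕ, t ^ k / k.factorial * (Q p)^[k] φ x

lemma φb (x : ℤ) : 0 ≤ φ x ∧ φ x ≤ 1 := by unfold φ; split_ifs <;> norm_num

lemma Qb (h0 : ∀ z, 0 ≤ p z) (h1 : HasSum p 1) (k : ℕ) : ∀ x, |(Q p)^[k] φ x| ≤ 2 ^ k := by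
  induction k with
  | zero => intro x; simpa [abs_of_nonneg (φb x).1] using (φb x).2
  | succ k ih =>
    intro x
    rw [Function.iterate_succ_apply', pow_succ']
    exact J_le h0 h1 x ih (ih x)

lemma Pb (h0 : ∀ z, 0 ≤ p z) (h1 : HasSum p 1) (k : ℕ) :
    ∀ x, 0 ≤ (P p)^[k] φ x ∧ |(P p)^[k] φ x| ≤ 1 := by
  induction k with
  | zero => intro x; simpa [abs_of_nonneg (φb x).1] using φb x
  | succ k ih =>
    intro x
    rw [Function.iterate_succ_apply']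
    exact ⟨tsum_nonneg fun y => mul_nonneg (h0 _) (ih y).1, I_le h0 h1 x fun y => (ih y).2⟩

lemma Qbin (h0 : ∀ z, 0 ≤ p z) (h1 : HasSum p 1) (k : ℕ) : ∀ x, (Q p)^[k] φ x =
    ∑ ij ∈ antidiagonal k, (k.choose ij.1 : ℝ) * ((-1) ^ ij.1 * (P p)^[ij.2] φ x) := by
  induction k with
  | zero => intro x; simp
  | succ k ih =>
    intro x
    rw [step (fun i j => (-1) ^ i * (P p)^[j] φ x), Function.iterate_succ_apply', Q,
      funext ih]
    simp_rw [← mul_assoc]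
    rw [J_sum h0 h1 x _ _ (fun ij : ℕ × ℕ => (P p)^[ij.2] φ) (fun ij => (P p)^[ij.2] φ x)
      (fun ij => ⟨1, fun y => (Pb h0 h1 _ y).2⟩), ← sum_add_distrib]
    refine sum_congr rfl fun ij _ => ?_
    rw [J_eq h0 h1 x (fun y => (Pb h0 h1 _ y).2), Function.iterate_succ_apply']
    simp only [P]
    ring

lemma Eb (h0 : ∀ z, 0 ≤ p z) (h1 : HasSum p 1) {t : ℝ} (ht : 0 ≤ t) (x : ℤ) :
    0 ≤ E p t x ∧ E p t x ≤ Real.exp (-(t * Real.exp (-t) / 2 * p (-x))) := by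
  have hex : ∀ s : ℝ, HasSum (fun i : ℕ => s ^ i / i.factorial) (Real.exp s) := fun s => by
    rw [Real.exp_eq_exp_ℝ]
    exact NormedSpace.expSeries_div_hasSum_exp s
  have e1 : E p t x = Real.exp (-t) * ∑' i : ℕ, t ^ i / i.factorial * (P p)^[i] φ x := by
    unfold E
    simp_rw [Qbin h0 h1]
    rw [expmul t (a := fun i => (-1) ^ i) (b := fun j => (P p)^[j] φ x) (r := 1) (s := 1)
      (by simp) (fun i => by simpa using (Pb h0 h1 i x).2), ← (hex (-t)).tsum_eq]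
    congr 1
    refine tsum_congr fun i => ?_
    rw [neg_pow t]; ring
  have e2 : P p φ x = 1 - p (-x) / 2 := by
    have a := (hs h1 x).sub (hasSum_ite_eq (0 : ℤ) (p (-x) / 2))
    rw [← a.tsum_eq]
    refine tsum_congr fun y => ?_
    unfold φ
    split_ifs with hy
    · subst hy; simp; ring
    · simp
  have e3 : ∑' i : ℕ, t ^ i / i.factorial * (P p)^[i] φ x ≤ Real.exp t - t * (p (-x) / 2) := by
    have a := (hex t).sub (hasSum_ite_eq (1 : ℕ) (t * (p (-x) / 2)))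
    rw [← a.tsum_eq]
    refine Summable.tsum_le_tsum (fun i => ?_)
      (smx t (r := 1) (fun i => by simpa using (Pb h0 h1 i x).2)).of_norm a.summable
    split_ifs with hi
    · subst hi; simp [e2]; linarith
    · have := (abs_le.1 (Pb h0 h1 i x).2).2
      have h2 : 0 ≤ t ^ i / i.factorial := by positivity
      nlinarith
  rw [e1]
  refine ⟨mul_nonneg (Real.exp_pos _).le
    (tsum_nonneg fun i => mul_nonneg (by positivity) (Pb h0 h1 i x).1), ?_⟩
  refine (mul_le_mul_of_nonneg_left e3 (Real.exp_pos _).le).trans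
    (le_trans (le_of_eq ?_) (Real.add_one_le_exp _))
  rw [mul_sub, ← Real.exp_add]
  simp
  ring

lemma gen_eq (f : (ℤ →₀ ℕ) → ℝ) (η : ℤ →₀ ℕ) : gen Nat.cast p f η =
    ∑ x ∈ η.support, (η x : ℝ) * J p x (fun y => f (move η x y)) (f η) := rfl

lemma deg_move {η : ℤ →₀ ℕ} {x : ℤ} (hx : x ∈ η.support) (y : ℤ) :
    (move η x y).degree = η.degree := by
  have h : Finsupp.single x 1 ≤ η :=
    Finsupp.single_le_iff.2 (Nat.one_le_iff_ne_zero.2 (Finsupp.mem_support_iff.1 hx))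
  conv_rhs => rw [← tsub_add_cancel_of_le h]
  simp [move]

lemma gen_le (h0 : ∀ z, 0 ≤ p z) (h1 : HasSum p 1) {f : (ℤ →₀ ℕ) → ℝ} {c : ℕ → ℝ}
    (hf : ∀ η, |f η| ≤ c η.degree) (η : ℤ →₀ ℕ) :
    |gen Nat.cast p f η| ≤ 2 * η.degree * c η.degree := by
  rw [gen_eq]
  refine (abs_sum_le_sum_abs _ _).trans ?_
  have : ∀ x ∈ η.support, |(η x : ℝ) * J p x (fun y => f (move η x y)) (f η)| ≤
      η x * (2 * c η.degree) := fun x hx => by
    rw [abs_mul, Nat.abs_cast]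
    refine mul_le_mul_of_nonneg_left (J_le h0 h1 x (fun y => ?_) (hf η)) (by positivity)
    rw [← deg_move hx y]; exact hf _
  refine (sum_le_sum this).trans (le_of_eq ?_)
  rw [← sum_mul, ← Nat.cast_sum, ← Finsupp.degree_apply]
  ring

lemma Lb (h0 : ∀ z, 0 ≤ p z) (h1 : HasSum p 1) (k : ℕ) :
    ∀ η, |(gen Nat.cast p)^[k] F η| ≤ (2 * η.degree) ^ k := by
  induction k with
  | zero =>
    intro η
    simp only [Function.iterate_zero, id, F, pow_zero, abs_pow]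
    exact pow_le_one₀ (abs_nonneg _) (by norm_num)
  | succ k ih =>
    intro η
    rw [Function.iterate_succ_apply', pow_succ']
    exact gen_le h0 h1 (c := fun N => (2 * N) ^ k) ih η

lemma gen_add (f : (ℤ →₀ ℕ) → ℝ) (η : ℤ →₀ ℕ) (x : ℤ) :
    gen Nat.cast p f (η + Finsupp.single x 1) =
      Q p (fun y => f (η + Finsupp.single y 1)) x +
        gen Nat.cast p (fun ζ => f (ζ + Finsupp.single x 1)) η := by
  set T : ℤ → ℝ := fun z => J p z (fun y => f (move (η + Finsupp.single x 1) z y))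
    (f (η + Finsupp.single x 1)) with hT
  have e1 : gen Nat.cast p f (η + Finsupp.single x 1) =
      (η + Finsupp.single x 1).sum (fun z n => (n : ℝ) * T z) := rfl
  rw [e1, Finsupp.sum_add_index' (by simp) (by intro a b c; push_cast; ring),
    Finsupp.sum_single_index (by simp), add_comm]
  congr 1
  · simp [hT, Q, move]
  · rw [gen_eq]
    refine sum_congr rfl fun z hz => ?_
    have h : Finsupp.single z 1 ≤ η :=
      Finsupp.single_le_iff.2 (Nat.one_le_iff_ne_zero.2 (Finsupp.mem_support_iff.1 hz))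
    simp only [hT, move]
    congr 2
    funext y
    rw [← tsub_add_eq_add_tsub h, add_right_comm]

lemma gen_sum (h0 : ∀ z, 0 ≤ p z) (h1 : HasSum p 1) {ι : Type} (s : Finset ι) (c : ι → ℝ)
    (G : ι → (ℤ →₀ ℕ) → ℝ) (hG : ∀ i, ∃ b : ℕ → ℝ, ∀ η, |G i η| ≤ b η.degree) (η : ℤ →₀ ℕ) :
    gen Nat.cast p (fun ζ => ∑ i ∈ s, c i * G i ζ) η =
      ∑ i ∈ s, c i * gen Nat.cast p (G i) η := by
  simp_rw [gen_eq, mul_sum]
  rw [sum_comm]
  refine sum_congr rfl fun x hx => ?_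
  rw [J_sum h0 h1 x s c (fun i y => G i (move η x y)) (fun i => G i η), mul_sum]
  · exact sum_congr rfl fun i _ => by ring
  · intro i
    obtain ⟨b, hb⟩ := hG i
    exact ⟨b η.degree, fun y => by rw [← deg_move hx y]; exact hb _⟩

lemma leib (h0 : ∀ z, 0 ≤ p z) (h1 : HasSum p 1) (k : ℕ) : ∀ η x,
    (gen Nat.cast p)^[k] F (η + Finsupp.single x 1) = ∑ ij ∈ antidiagonal k,
      (k.choose ij.1 : ℝ) * ((Q p)^[ij.1] φ x * (gen Nat.cast p)^[ij.2] F η) := by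
  induction k with
  | zero =>
    intro η x
    by_cases hx : x = 0
    · subst hx; simp [F, φ, pow_succ']
    · simp [F, φ, hx]
  | succ k ih =>
    intro η x
    rw [step (fun i j => (Q p)^[i] φ x * (gen Nat.cast p)^[j] F η), Function.iterate_succ_apply',
      gen_add]
    simp_rw [ih]
    congr 1
    · have := J_sum h0 h1 x (antidiagonal k)
        (fun ij => (k.choose ij.1 : ℝ) * (gen Nat.cast p)^[ij.2] F η)
        (fun ij : ℕ × ℕ => (Q p)^[ij.1] φ) (fun ij => (Q p)^[ij.1] φ x)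
        (fun ij => ⟨_, Qb h0 h1 _⟩)
      simp_rw [mul_assoc, mul_comm ((gen Nat.cast p)^[_] F η)] at this
      rw [Q, this]
      refine sum_congr rfl fun ij _ => ?_
      rw [Function.iterate_succ_apply']
      rfl
    · simp_rw [← mul_assoc]
      rw [gen_sum h0 h1 _ _ (fun ij : ℕ × ℕ => (gen Nat.cast p)^[ij.2] F)
        (fun ij => ⟨fun N => (2 * N) ^ ij.2, Lb h0 h1 _⟩)]
      refine sum_congr rfl fun ij _ => ?_
      rw [Function.iterate_succ_apply']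

lemma sg_add (h0 : ∀ z, 0 ≤ p z) (h1 : HasSum p 1) (t : ℝ) (η : ℤ →₀ ℕ) (x : ℤ) (n : ℕ) :
    sg Nat.cast p t F (η + Finsupp.single x n) = E p t x ^ n * sg Nat.cast p t F η := by
  induction n with
  | zero => simp
  | succ n ih =>
    rw [Finsupp.single_add, ← add_assoc, pow_succ', mul_assoc, ← ih]
    unfold sg
    simp_rw [leib h0 h1]
    exact expmul t (fun i => Qb h0 h1 i x) (fun j => Lb h0 h1 j _)

lemma sg_prod (h0 : ∀ z, 0 ≤ p z) (h1 : HasSum p 1) (t : ℝ) (η : ℤ →₀ ℕ) :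
    sg Nat.cast p t F η = η.prod (fun x n => E p t x ^ n) := by
  induction η using Finsupp.induction with
  | zero =>
    unfold sg
    rw [tsum_eq_single 0]
    · simp [F]
    · intro k hk
      obtain ⟨k, rfl⟩ := Nat.exists_eq_succ_of_ne_zero hk
      rw [Function.iterate_succ_apply']
      simp [gen]
  | single_add x n η _ _ ih =>
    rw [add_comm, sg_add h0 h1, ih, Finsupp.prod_add_index' (by simp) (fun a b c => pow_add _ _ _),
      Finsupp.prod_single_index (by simp), mul_comm]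

lemma sg_le (h0 : ∀ z, 0 ≤ p z) (h1 : HasSum p 1) {t : ℝ} (ht : 0 ≤ t) (η : ℤ → ℕ) (n : ℕ) :
    sg Nat.cast p t F (trunc η n) ≤
      Real.exp (-(t * Real.exp (-t) / 2 * ∑ x ∈ Icc (-(n : ℤ)) n, η x * p (-x))) := by
  rw [sg_prod h0 h1, trunc, Finsupp.prod_indicator_index _ (by simp), mul_sum,
    ← sum_neg_distrib, Real.exp_sum]
  refine prod_le_prod (fun x _ => pow_nonneg (Eb h0 h1 ht x).1 _) fun x _ => ?_
  refine (pow_le_pow_left₀ (Eb h0 h1 ht x).1 (Eb h0 h1 ht x).2 _).trans (le_of_eq ?_)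
  rw [← Real.exp_nat_mul]
  congr 1
  ring

end Pool.Agent.H.MP_773c46_pr
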